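import Mathlib
import Pool.Agent.Work.MP_cdfd58_co.Main

set_option autoImplicit false

open Pool.Agent.Work.MP_cdfd58_co

namespace Pool.Agent.Results.MP_cdfd58_co.SevenFifths

/-- There is a connected graph (the generalized Petersen graph GP(7,2)) with independence
number `5` and eviction number `7`; its ratio `7/5` exceeds `4/3`. -/
theorem result : ∃ G : SimpleGraph (Fin 14), G.Connected ∧ G.indepNum = 5 ∧
    evictionNumber G = 7 ∧ (4 / 3 : ℝ) < (evictionNumber G : ℝ) / (G.indepNum : ℝ) := by
  refine ⟨GP, connected_GP, indepNum_GP, evictionNumber_GP, ?_⟩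
  rw [evictionNumber_GP, indepNum_GP]
  norm_num

end Pool.Agent.Results.MP_cdfd58_co.SevenFifths
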